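import Pool.Agent.helper62.K3.Defs

/-!
HK project (MP_90cd86_gt), module P6D: the transformation law of the holomorphic 2-form of `X0`.
-/

open scoped Manifold ContDiff
open scoped Classical

noncomputable section

namespace Pool.Agent.helper62.K3

theorem P6D_tri_mul (z p q : Fin 6 → ℂ) (a b c : Fin 6) :
    tri (fun i => z i ^ 2) (fun i => z i * p i) (fun i => z i * q i) a b c =
      z a * z b * z c * tri z p q a b c := by
  unfold tri
  ring

theorem P6D_prod (a b c : Fin 6) (hab : a ≠ b) (hac : a ≠ c) (hbc : b ≠ c) (z : Fin 6 → ℂ) :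
    (∏ j ∈ Finset.univ \ ({a, b, c} : Finset (Fin 6)), z j) * (z a * z b * z c) = ∏ j, z j := by
  rw [← Finset.prod_sdiff (Finset.subset_univ ({a, b, c} : Finset (Fin 6)))]
  congr 1
  rw [Finset.prod_insert (by simp [hab, hac]), Finset.prod_insert (by simp [hbc]),
    Finset.prod_singleton, mul_assoc]

theorem P6D_card (a b c : Fin 6) (hab : a ≠ b) (hac : a ≠ c) (hbc : b ≠ c) :
    (Finset.univ \ ({a, b, c} : Finset (Fin 6))).card = 3 := by
  rw [Finset.card_sdiff_of_subset (Finset.subset_univ _), Finset.card_univ, Fintype.card_fin,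
    Finset.card_insert_of_notMem (by simp [hab, hac]), Finset.card_insert_of_notMem (by simp [hbc]),
    Finset.card_singleton]

/-- the purely algebraic part -/
theorem P6D_alg (z z' p q : Fin 6 → ℂ) (a b c a' b' c' : Fin 6) (hab : a ≠ b) (hac : a ≠ c)
    (hbc : b ≠ c) (hab' : a' ≠ b') (hac' : a' ≠ c') (hbc' : b' ≠ c') (hz : ∀ i, z i ≠ 0)
    (hz' : ∀ i, z' i = z i / z a') (_ha : z a = 1) (w w' D : ℂ)
    (h1 : w * tri (fun i => z i ^ 2) (fun i => z i * p i) (fun i => z i * q i) a b c =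
      w' * tri (fun i => z i ^ 2) (fun i => z i * p i) (fun i => z i * q i) a' b' c')
    (h2 : tri z p q a b c = 1) (h3 : D = tri z p q a' b' c' / z a' ^ 3) :
    w / (∏ j ∈ Finset.univ \ ({a, b, c} : Finset (Fin 6)), z j) =
      w' / (∏ j ∈ Finset.univ \ ({a', b', c'} : Finset (Fin 6)), z' j) * D := by
  have e1 := P6D_prod a b c hab hac hbc z
  have e2 := P6D_prod a' b' c' hab' hac' hbc' z
  have e3 : (∏ j ∈ Finset.univ \ ({a', b', c'} : Finset (Fin 6)), z' j) =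
      (∏ j ∈ Finset.univ \ ({a', b', c'} : Finset (Fin 6)), z j) / z a' ^ 3 := by
    rw [Finset.prod_congr rfl fun j _ => hz' j, Finset.prod_div_distrib, Finset.prod_const,
      P6D_card a' b' c' hab' hac' hbc']
  rw [P6D_tri_mul, P6D_tri_mul, h2, mul_one] at h1
  rw [e3, h3]
  have n1 : (∏ j ∈ Finset.univ \ ({a, b, c} : Finset (Fin 6)), z j) ≠ 0 :=
    Finset.prod_ne_zero_iff.2 fun j _ => hz j
  have n2 : (∏ j ∈ Finset.univ \ ({a', b', c'} : Finset (Fin 6)), z j) ≠ 0 :=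
    Finset.prod_ne_zero_iff.2 fun j _ => hz j
  have n3 := hz a
  have n4 := hz b
  have n5 := hz c
  have n6 := hz a'
  have n7 := hz b'
  have n8 := hz c'
  set P := ∏ j ∈ Finset.univ \ ({a, b, c} : Finset (Fin 6)), z j with hP
  set P' := ∏ j ∈ Finset.univ \ ({a', b', c'} : Finset (Fin 6)), z j with hP'
  set t := tri z p q a' b' c' with ht
  have e4 : P * (z a * z b * z c) = P' * (z a' * z b' * z c') := e1.trans e2.symm
  have n9 : z a' * z b' * z c' ≠ 0 := mul_ne_zero (mul_ne_zero n6 n7) n8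
  have n10 : z a * z b * z c ≠ 0 := mul_ne_zero (mul_ne_zero n3 n4) n5
  have e5 : w' / (P' / z a' ^ 3) * (t / z a' ^ 3) = w' * t / P' := by
    field_simp
  rw [e5, div_eq_div_iff n1 n2]
  -- w * P' = w' * t * P
  have e6 : w * P' * (z a * z b * z c) * (z a' * z b' * z c') =
      w' * t * P * (z a * z b * z c) * (z a' * z b' * z c') := by
    calc w * P' * (z a * z b * z c) * (z a' * z b' * z c')
        = (w * (z a * z b * z c)) * (P' * (z a' * z b' * z c')) := by ring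
      _ = (w' * (z a' * z b' * z c' * t)) * (P * (z a * z b * z c)) := by rw [h1, e4]
      _ = w' * t * P * (z a * z b * z c) * (z a' * z b' * z c') := by ring
  exact mul_right_cancel₀ n10 (mul_right_cancel₀ n9 e6)

theorem P6D_dense (u : ℂ × ℂ) : u ∈ closure {v : ℂ × ℂ | v.1 ≠ 0 ∧ v.2 ≠ 0} := by
  have h : {v : ℂ × ℂ | v.1 ≠ 0 ∧ v.2 ≠ 0} = ({0}ᶜ : Set ℂ) ×ˢ ({0}ᶜ : Set ℂ) := by
    ext v
    simp [Set.mem_prod]
  rw [h, closure_prod_eq, (dense_compl_singleton (0 : ℂ)).closure_eq]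
  exact ⟨Set.mem_univ _, Set.mem_univ _⟩

/-- hk:P6D from P2, P5, P6A, P6B, P6C -/
theorem P6D_of
    (hzc : ∀ (a i : Fin 6), ContinuousOn (zc a i) {T | T.1 a a ≠ 0})
    (hrel : ∀ (a : Fin 6) (T : X0) (_ : T.1 a a ≠ 0),
      zc a a T = 1 ∧ (fun i => zc a i T ^ 2) ∈ KK ∧
      (∀ i j, T.1 i j = zc a i T * (starRingEnd ℂ) (zc a j T) / ((∑ k, ‖zc a k T‖ ^ 2 : ℝ) : ℂ)) ∧
      (∀ i, T.1 i i = 0 ↔ zc a i T = 0) ∧
      (∀ b, T.1 b b ≠ 0 → ∀ i, zc b i T = zc a i T / zc a b T))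
    (h5 : ∀ (e e' : OpenPartialHomeomorph X0 (ℂ × ℂ)) (_ : IsCh e) (_ : IsCh e'),
      AnalyticOnNhd ℂ (fun u => e' (e.symm u)) (e.target ∩ e.symm ⁻¹' e'.source))
    (h6A : ∀ (t u v : Fin 6 → ℂ) (_ : t ∈ KK) (_ : u ∈ KK) (_ : v ∈ KK) (a b c : Fin 6)
      (_ : a ≠ b) (_ : a ≠ c) (_ : b ≠ c),
      WW a b c * tri t u v a b c = WW 0 1 2 * tri t u v 0 1 2)
    (h6B : ∀ (a b c : Fin 6) (e : OpenPartialHomeomorph X0 (ℂ × ℂ)) (_ : IsChAt a b c e)
      (u : ℂ × ℂ) (_ : u ∈ e.target),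
      (∀ h : ℂ × ℂ, (fun i => zc a i (e.symm u) * fderiv ℂ (fun z => zc a i (e.symm z)) u h) ∈ KK) ∧
      tri (fun i => zc a i (e.symm u)) (fun i => fderiv ℂ (fun z => zc a i (e.symm z)) u (1, 0))
        (fun i => fderiv ℂ (fun z => zc a i (e.symm z)) u (0, 1)) a b c = 1)
    (h6C : ∀ (a b c a' b' c' : Fin 6) (e e' : OpenPartialHomeomorph X0 (ℂ × ℂ))
      (_ : IsChAt a b c e) (_ : IsChAt a' b' c' e') (T : X0) (_ : T ∈ e.source)
      (_ : T ∈ e'.source),
      (fderiv ℂ (fun z => e' (e.symm z)) (e T)).det =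
        tri (fun i => zc a i T) (fun i => fderiv ℂ (fun z => zc a i (e.symm z)) (e T) (1, 0))
          (fun i => fderiv ℂ (fun z => zc a i (e.symm z)) (e T) (0, 1)) a' b' c' /
          zc a a' T ^ 3)
    (a b c a' b' c' : Fin 6) (e e' : OpenPartialHomeomorph X0 (ℂ × ℂ))
    (he : IsChAt a b c e) (he' : IsChAt a' b' c' e') (T : X0) (hT : T ∈ e.source)
    (hT' : T ∈ e'.source) :
    wX a b c T = wX a' b' c' T * (fderiv ℂ (fun z => e' (e.symm z)) (e T)).det := by
  obtain ⟨hab, hac, hbc, hO, hcrd⟩ := id he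
  obtain ⟨hab', hac', hbc', hO', hcrd'⟩ := id he'
  -- the open set
  set D : Set (ℂ × ℂ) := e.target ∩ e.symm ⁻¹' e'.source with hD
  have hDo : IsOpen D := e.symm.isOpen_inter_preimage e'.open_source
  have hsource : ∀ u ∈ D, e.symm u ∈ e.source := fun u hu => e.map_target hu.1
  -- zc is continuous along e.symm
  have hcont : ∀ (k i : Fin 6), (∀ S ∈ e.source, S ∈ e'.source → S.1 k k ≠ 0) →
      ContinuousOn (fun u => zc k i (e.symm u)) D := by
    intro k i hk
    refine (hzc k i).comp (e.continuousOn_symm.mono Set.inter_subset_left) fun u hu => ?_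
    exact hk _ (hsource u hu) hu.2
  have hne : ∀ S ∈ e.source, ∀ j, j ≠ b → j ≠ c → S.1 j j ≠ 0 := by
    intro S hS j hjb hjc
    by_cases hja : j = a
    · rw [hja]
      exact (hO hS).1
    · exact (hO hS).2 j hja hjb hjc
  have hne' : ∀ S ∈ e'.source, ∀ j, j ≠ b' → j ≠ c' → S.1 j j ≠ 0 := by
    intro S hS j hjb hjc
    by_cases hja : j = a'
    · rw [hja]
      exact (hO' hS).1
    · exact (hO' hS).2 j hja hjb hjc
  have hprodne : ∀ S ∈ e.source,
      (∏ j ∈ Finset.univ \ ({a, b, c} : Finset (Fin 6)), zc a j S) ≠ 0 := by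
    intro S hS
    refine Finset.prod_ne_zero_iff.2 fun j hj => ?_
    have hj' : j ≠ a ∧ j ≠ b ∧ j ≠ c := by
      simpa [Finset.mem_sdiff] using hj
    intro h0
    exact hne S hS j hj'.2.1 hj'.2.2 (((hrel a S (hO hS).1).2.2.2.1 j).2 h0)
  have hprodne' : ∀ S ∈ e'.source,
      (∏ j ∈ Finset.univ \ ({a', b', c'} : Finset (Fin 6)), zc a' j S) ≠ 0 := by
    intro S hS
    refine Finset.prod_ne_zero_iff.2 fun j hj => ?_
    have hj' : j ≠ a' ∧ j ≠ b' ∧ j ≠ c' := by
      simpa [Finset.mem_sdiff] using hj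
    intro h0
    exact hne' S hS j hj'.2.1 hj'.2.2 (((hrel a' S (hO' hS).1).2.2.2.1 j).2 h0)
  have hL : ContinuousOn (fun u => wX a b c (e.symm u)) D := by
    unfold wX
    refine ContinuousOn.div continuousOn_const (continuousOn_finsetProd _ fun j _ =>
      hcont a j fun S hS _ => (hO hS).1) fun u hu => hprodne _ (hsource u hu)
  have hR1 : ContinuousOn (fun u => wX a' b' c' (e.symm u)) D := by
    unfold wX
    refine ContinuousOn.div continuousOn_const (continuousOn_finsetProd _ fun j _ =>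
      hcont a' j fun S _ hS => (hO' hS).1) fun u hu => hprodne' _ hu.2
  have hR2 : ContinuousOn (fun u => (fderiv ℂ (fun z => e' (e.symm z)) u).det) D := by
    have h := (h5 e e' ⟨a, b, c, he⟩ ⟨a', b', c', he'⟩).fderiv
    exact ContinuousLinearMap.continuous_det.comp_continuousOn h.continuousOn
  have hR : ContinuousOn (fun u => wX a' b' c' (e.symm u) *
      (fderiv ℂ (fun z => e' (e.symm z)) u).det) D := hR1.mul hR2
  -- equality at generic points
  have hgen : ∀ u ∈ D, u.1 ≠ 0 → u.2 ≠ 0 → wX a b c (e.symm u) = wX a' b' c' (e.symm u) *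
      (fderiv ℂ (fun z => e' (e.symm z)) u).det := by
    intro u hu hu1 hu2
    set S := e.symm u with hS
    have hSs : S ∈ e.source := hsource u hu
    have heS : e S = u := e.right_inv hu.1
    have hcr := hcrd S hSs
    rw [heS] at hcr
    have hzb : zc a b S = u.1 := by rw [hcr]; rfl
    have hzc' : zc a c S = u.2 := by rw [hcr]; rfl
    obtain ⟨r1, r2, _, r4, r5⟩ := hrel a S (hO hSs).1
    have hz : ∀ i, zc a i S ≠ 0 := by
      intro i
      by_cases hib : i = b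
      · rw [hib, hzb]; exact hu1
      by_cases hic : i = c
      · rw [hic, hzc']; exact hu2
      exact fun h0 => hne S hSs i hib hic ((r4 i).2 h0)
    have hB := h6B a b c e he u hu.1
    have hC := h6C a b c a' b' c' e e' he he' S hSs hu.2
    rw [heS] at hC
    refine P6D_alg (fun i => zc a i S) (fun i => zc a' i S)
      (fun i => fderiv ℂ (fun z => zc a i (e.symm z)) u (1, 0))
      (fun i => fderiv ℂ (fun z => zc a i (e.symm z)) u (0, 1))
      a b c a' b' c' hab hac hbc hab' hac' hbc' hz (r5 a' (hO' hu.2).1) r1 (WW a b c)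
      (WW a' b' c') _ ?_ hB.2 hC
    rw [h6A _ _ _ r2 (hB.1 (1, 0)) (hB.1 (0, 1)) a b c hab hac hbc,
      h6A _ _ _ r2 (hB.1 (1, 0)) (hB.1 (0, 1)) a' b' c' hab' hac' hbc']
  -- conclusion by density
  have hTD : e T ∈ D := ⟨e.map_source hT, by
    change e.symm (e T) ∈ e'.source
    rw [e.left_inv hT]
    exact hT'⟩
  have hcl : e T ∈ closure (D ∩ {v : ℂ × ℂ | v.1 ≠ 0 ∧ v.2 ≠ 0}) := by
    have h := hDo.inter_closure (t := {v : ℂ × ℂ | v.1 ≠ 0 ∧ v.2 ≠ 0})
    exact h ⟨hTD, P6D_dense _⟩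
  have hnb : (nhdsWithin (e T) (D ∩ {v : ℂ × ℂ | v.1 ≠ 0 ∧ v.2 ≠ 0})).NeBot :=
    mem_closure_iff_nhdsWithin_neBot.1 hcl
  have t1 := ((hL (e T) hTD).mono_left
    (nhdsWithin_mono (e T) (Set.inter_subset_left (s := D)
      (t := {v : ℂ × ℂ | v.1 ≠ 0 ∧ v.2 ≠ 0}))))
  have t2 := ((hR (e T) hTD).mono_left
    (nhdsWithin_mono (e T) (Set.inter_subset_left (s := D)
      (t := {v : ℂ × ℂ | v.1 ≠ 0 ∧ v.2 ≠ 0}))))
  have hev : (fun u => wX a b c (e.symm u)) =ᶠ[nhdsWithin (e T)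
      (D ∩ {v : ℂ × ℂ | v.1 ≠ 0 ∧ v.2 ≠ 0})] (fun u => wX a' b' c' (e.symm u) *
      (fderiv ℂ (fun z => e' (e.symm z)) u).det) := by
    filter_upwards [self_mem_nhdsWithin] with u hu
    exact hgen u hu.1 hu.2.1 hu.2.2
  have hfin := tendsto_nhds_unique (t1.congr' hev) t2
  dsimp only at hfin
  rw [e.left_inv hT] at hfin
  exact hfin

end Pool.Agent.helper62.K3
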