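import Pool.Agent.helper62.K3.Defs

/-!
HK project (MP_90cd86_gt), module UC: the cohomology of the germ of `X` at a finite set `F`
vanishes in degrees different from one.
-/

open scoped Manifold ContDiff
open scoped Classical

noncomputable section

namespace Pool.Agent.helper62.K3

theorem UC_min {X : Type} (F : Set X) (hF : F.Finite) (r : X → ℝ) (hr : ∀ p ∈ F, 0 < r p) :
    ∃ r0 > 0, ∀ p ∈ F, r0 ≤ r p := by
  induction F, hF using Set.Finite.induction_on with
  | empty => exact ⟨1, one_pos, fun p hp => absurd hp (Set.notMem_empty p)⟩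
  | @insert a s _ _ ih =>
    obtain ⟨r1, h1, h2⟩ := ih fun p hp => hr p (Set.mem_insert_of_mem _ hp)
    refine ⟨min r1 (r a), lt_min h1 (hr a (Set.mem_insert _ _)), fun p hp => ?_⟩
    rcases Set.mem_insert_iff.1 hp with rfl | hp
    · exact min_le_right _ _
    · exact (min_le_left _ _).trans (h2 p hp)

theorem UC_of
    (hHT2 : ∀ {X Y : Type} [MetricSpace X] [MetricSpace Y] (B : Set X) (_ : IsCompact B)
      (D : Set Y) (Φ : ℝ → X → Y)
      (_ : ContinuousOn (fun q : ℝ × X => Φ q.1 q.2) (Set.Icc 0 1 ×ˢ B))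
      (_ : ∀ t ∈ Set.Icc (0 : ℝ) 1, ∀ x ∈ B, Φ t x ∈ D) (n : ℕ) (f : Finset Y → ZMod 2)
      (_ : dd f ∈ Zg D (n + 1)),
      ∃ g : Finset X → ZMod 2, g ∅ = 0 ∧ pull (Φ 0) f + pull (Φ 1) f + dd g ∈ Zg B n)
    {X : Type} [MetricSpace X] [CompactSpace X] (lc : LC X) (F : Set X) (hF : F.Finite) (n : ℕ)
    (hn : n ≠ 1) :
    Subsingleton (Coh (dd (X := X)) (ZF F) (Vrel ∅) n) := by
  have hV : ∀ f : Finset X → ZMod 2, f ∈ Vrel (∅ : Set X) ↔ f ∅ = 0 := by
    intro f
    constructor
    · rintro ⟨δ, _, h⟩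
      exact h ∅ (by simp [Near])
    · intro h
      refine ⟨1, one_pos, fun σ hσ => ?_⟩
      rcases Finset.eq_empty_or_nonempty σ with rfl | ⟨x, hx⟩
      · exact h
      · obtain ⟨p, hp, _⟩ := hσ x hx
        exact absurd hp (Set.notMem_empty p)
  suffices key : ∀ f : Finset X → ZMod 2, f ∈ Cyc dd (ZF F) (Vrel ∅) n →
      f ∈ Bdy dd (ZF F) (Vrel ∅) n by
    refine ⟨fun a b => ?_⟩
    have hz : ∀ a : Coh (dd (X := X)) (ZF F) (Vrel ∅) n, a = 0 := by
      intro a
      induction a using Submodule.Quotient.induction_on with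
      | H f =>
        rw [Submodule.Quotient.mk_eq_zero]
        exact key f.1 f.2
    rw [hz a, hz b]
  intro f hf
  obtain ⟨hf0, hf1⟩ := hf
  have hf0' : f ∅ = 0 := (hV f).1 hf0
  rcases Nat.eq_zero_or_pos n with rfl | hpos
  · refine Submodule.mem_sup_right ⟨hf0, 1, one_pos, fun σ _ _ hc => ?_⟩
    rw [Finset.card_eq_zero.1 hc]
    exact hf0'
  have hn2 : 2 ≤ n := by omega
  obtain ⟨δ, hδ, hfd⟩ : ∃ δ > 0, ∀ σ : Finset X, Near F δ σ → Small δ σ → σ.card = n + 1 →
      dd f σ = 0 := hf1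
  obtain ⟨s, hs, hsep⟩ : ∃ C > 0, ∀ x ∈ F, ∀ y ∈ F, x ≠ y → C ≤ dist x y := by
    obtain ⟨C, hC, h⟩ := UC_min (F.offDiag) hF.offDiag (fun q => dist q.1 q.2)
      (fun q hq => dist_pos.2 hq.2.2)
    exact ⟨C, hC, fun x hx y hy hne => h (x, y) ⟨hx, hy, hne⟩⟩
  set ε := min (δ / 2) (s / 4) with hε
  have hεp : 0 < ε := lt_min (by linarith) (by linarith)
  have hεδ : ε < δ := (min_le_left _ _).trans_lt (by linarith)
  have hεs : ε ≤ s / 4 := min_le_right _ _
  -- the local primitives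
  have hloc : ∀ p : X, p ∈ F → ∃ η > 0, Metric.closedBall p η ⊆ Metric.closedBall p ε ∧
      ∃ g : Finset X → ZMod 2, ∃ δ' > 0, ∀ σ : Finset X, (↑σ : Set X) ⊆ Metric.closedBall p η →
        Small δ' σ → σ.card = n → f σ = dd g σ := by
    intro p hp
    obtain ⟨η, hη, Φ, hc, h0, ⟨c, h1⟩, hD⟩ := lc p ε hεp
    have hsub : Metric.closedBall p η ⊆ Metric.closedBall p ε := by
      intro y hy
      have := hD 0 ⟨le_refl _, zero_le_one⟩ y hy
      rwa [h0 y hy] at this
    obtain ⟨g, hg0, δ', hδ', hg⟩ := hHT2 (Metric.closedBall p η)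
      (Metric.isClosed_closedBall.isCompact) (Metric.closedBall p ε) Φ hc hD n f
      ⟨δ, hδ, fun σ hσ hsm hcard => hfd σ (fun x hx => ⟨p, hp,
        lt_of_le_of_lt (Metric.mem_closedBall.1 (hσ hx)) hεδ⟩) hsm hcard⟩
    refine ⟨η, hη, hsub, g, δ', hδ', fun σ hσ hsm hcard => ?_⟩
    have h2 := hg σ hσ hsm hcard
    have hp0 : pull (Φ 0) f σ = f σ := by
      have him : σ.image (Φ 0) = σ := by
        ext y
        rw [Finset.mem_image]
        constructor
        · rintro ⟨x, hx, rfl⟩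
          rw [h0 x (hσ hx)]
          exact hx
        · intro hy
          exact ⟨y, hy, h0 y (hσ hy)⟩
      change (if (σ.image (Φ 0)).card = σ.card then f (σ.image (Φ 0)) else 0) = f σ
      rw [him, if_pos rfl]
    have hp1 : pull (Φ 1) f σ = 0 := by
      have him : (σ.image (Φ 1)).card ≤ 1 := by
        rw [Finset.card_le_one]
        intro a ha b hb
        obtain ⟨x, hx, rfl⟩ := Finset.mem_image.1 ha
        obtain ⟨y, hy, rfl⟩ := Finset.mem_image.1 hb
        rw [h1 x (hσ hx), h1 y (hσ hy)]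
      change (if (σ.image (Φ 1)).card = σ.card then f (σ.image (Φ 1)) else 0) = 0
      rw [if_neg]
      omega
    rw [Pi.add_apply, Pi.add_apply, hp0, hp1, add_zero] at h2
    have h3 : f σ = - dd g σ := eq_neg_of_add_eq_zero_left h2
    rw [h3, ZMod.neg_eq_self_mod_two]
  choose! η hη hsub g δ' hδ' hg using hloc
  obtain ⟨r1, hr1, hr1'⟩ := UC_min F hF η hη
  obtain ⟨r2, hr2, hr2'⟩ := UC_min F hF δ' hδ'
  -- uniqueness of the ball
  have huniq : ∀ p ∈ F, ∀ q ∈ F, ∀ x : X, x ∈ Metric.closedBall p (η p) →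
      x ∈ Metric.closedBall q (η q) → p = q := by
    intro p hp q hq x hxp hxq
    by_contra hne
    have h1 := hsep p hp q hq hne
    have h2 := Metric.mem_closedBall.1 (hsub p hp hxp)
    have h3 := Metric.mem_closedBall.1 (hsub q hq hxq)
    have h4 := dist_triangle_left p q x
    linarith
  set G : Finset X → ZMod 2 := fun τ =>
    if h : ∃ p ∈ F, (↑τ : Set X) ⊆ Metric.closedBall p (η p) ∧ τ.Nonempty then
      g h.choose τ else 0 with hG
  have hGval : ∀ p ∈ F, ∀ τ : Finset X, (↑τ : Set X) ⊆ Metric.closedBall p (η p) →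
      τ.Nonempty → G τ = g p τ := by
    intro p hp τ hτ hne
    have h : ∃ p ∈ F, (↑τ : Set X) ⊆ Metric.closedBall p (η p) ∧ τ.Nonempty := ⟨p, hp, hτ, hne⟩
    have h5 : G τ = g h.choose τ := by
      rw [hG]
      exact dif_pos h
    rw [h5]
    obtain ⟨x, hx⟩ := hne
    rw [huniq h.choose h.choose_spec.1 p hp x (h.choose_spec.2.1 hx) (hτ hx)]
  have hG0 : G ∅ = 0 := by
    rw [hG]
    refine dif_neg ?_
    rintro ⟨p, _, _, h⟩
    exact Finset.not_nonempty_empty h
  have hfin : f - dd G ∈ ZF F n := by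
    refine ⟨min (min r1 r2) (s / 4), lt_min (lt_min hr1 hr2) (by linarith),
      fun σ hnear hsm hcard => ?_⟩
    set δ0 := min (min r1 r2) (s / 4) with hδ0
    have hd1 : δ0 ≤ r1 := (min_le_left _ _).trans (min_le_left _ _)
    have hd2 : δ0 ≤ r2 := (min_le_left _ _).trans (min_le_right _ _)
    have hd3 : δ0 ≤ s / 4 := min_le_right _ _
    have hσne : σ.Nonempty := Finset.card_pos.1 (by omega)
    obtain ⟨x0, hx0⟩ := hσne
    obtain ⟨p, hp, hpx⟩ := hnear x0 hx0
    have hball : ∀ y ∈ σ, dist y p < δ0 := by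
      intro y hy
      obtain ⟨q, hq, hqy⟩ := hnear y hy
      have hpq : p = q := by
        by_contra hne
        have h1 := hsep p hp q hq hne
        have h2 := hsm x0 hx0 y hy
        have h3 : dist p q ≤ dist x0 p + dist x0 y + dist y q := by
          have h4 := dist_triangle_left p q x0
          have h5 := dist_triangle x0 y q
          linarith
        linarith
      rw [hpq]
      exact hqy
    have hσp : (↑σ : Set X) ⊆ Metric.closedBall p (η p) := by
      intro y hy
      exact Metric.mem_closedBall.2 ((hball y hy).le.trans (hd1.trans (hr1' p hp)))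
    have hsm' : Small (δ' p) σ := fun x hx y hy =>
      (hsm x hx y hy).trans_le (hd2.trans (hr2' p hp))
    have h6 := hg p hp σ hσp hsm' hcard
    have h7 : dd G σ = dd (g p) σ := by
      change ∑ x ∈ σ, G (σ.erase x) = ∑ x ∈ σ, g p (σ.erase x)
      refine Finset.sum_congr rfl fun x hx => ?_
      refine hGval p hp _ (fun y hy => hσp ?_) ?_
      · exact Finset.mem_of_mem_erase hy
      · rw [← Finset.card_pos, Finset.card_erase_of_mem hx]
        omega
    rw [Pi.sub_apply, h6, h7, sub_self]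
  have hsum : f = dd G + (f - dd G) := by abel
  rw [hsum]
  refine Submodule.add_mem_sup ⟨G, (hV G).2 hG0, rfl⟩ ⟨?_, hfin⟩
  have hddG : dd G ∈ Vrel (∅ : Set X) := (hV _).2 (by
    change ∑ x ∈ (∅ : Finset X), G ((∅ : Finset X).erase x) = 0
    exact Finset.sum_empty)
  exact Submodule.sub_mem _ hf0 hddG

end Pool.Agent.helper62.K3
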